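import Pool.Agent.Helper92.MC.Fml

/-!
# Matching Cut is NP-hard on `S_{2,2,2,2}`-subgraph-free graphs

A polynomial-time computable (by a Turing machine) many-one reduction from 3-SAT to Matching Cut
restricted to `S_{2,2,2,2}`-subgraph-free graphs of maximum degree at most 5. Formulas and graphs
are given by explicit injective encodings as words of bits (`encCNF`, `encGraph`).
-/

namespace Pool.Agent.Results.MP_12d0d1_lc.MatchingCutNPHard

open Pool.Agent.Helper92.MC

theorem result :
    Function.Injective encCNF ∧ Function.Injective encGraph ∧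
    ∃ F : CNF → FinGraph,
      Nonempty (Turing.TM2ComputableInPolyTime encCNF encGraph F) ∧
      ∀ φ : CNF, S2222.Free (F φ).2 ∧ (∀ v, ((F φ).2.neighborSet v).ncard ≤ 5) ∧
        (HasMatchingCut (F φ).2 ↔ Satisfiable φ.2) :=
  ⟨encCNF_injective, encGraph_injective, redG, F.redG_poly, redG_spec⟩

end Pool.Agent.Results.MP_12d0d1_lc.MatchingCutNPHard
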